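import Pool.Agent.H38.TO.S8.H602R3.DHJ.Base
import Pool.Agent.H38.TO.S8.TH423.SH.StmB
import Pool.Agent.H38.TO.S8.H262R3.Lk.Defs

/-!
# Project PSP (helper727): arithmetic progressions of pseudoprimes, exact statements of the tasks

For every `k` there are infinitely many arithmetic progressions of `k` pseudoprimes to base `2`.

1. (relative Szemerédi, Conlon-Fox-Zhao) tasks CS, SLF, CNT, DMT, PHI, VAR; they give `S_RS`.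
2. (an enveloping sieve for the numbers `1 + K W u`, `u ≤ N = (log X)^B`, on average over
   `K ∈ (X, 2X]`) tasks C1, SEL, LOC, MAJ, MK.
3. (primes `≡ 1 (mod P w u)`, `w` a product of many primes `p` with `p - 1 ∣ Λ`) tasks SMO, BAD, PRM.
4. (pseudoprimes `g (1 + K w u)`) tasks DAV, PPD, PSP.
-/

set_option autoImplicit false

open Finset

namespace Pool.Agent.Y727.PSP

open Pool.Agent.H602R3.DHJ (av)
open Pool.Agent.TH423.SH (PS PIj)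
open Pool.Agent.H262R3.Lk (Lj)

/-! ### Part 1: relative Szemerédi -/

section RS

variable {J V : Type}

/-- exchange the two components at the coordinates in `ω` -/
def sw [DecidableEq J] (ω : Finset J) (y : J → V × V) : J → V × V :=
  fun i => if i ∈ ω then (y i).swap else y i

/-- the second component at the coordinates in `ω`, the first component elsewhere -/
def sl [DecidableEq J] (ω : Finset J) (y : J → V × V) : J → V :=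
  fun i => if i ∈ ω then (y i).2 else (y i).1

/-- `g` does not depend on the coordinate `j` -/
def Ind [DecidableEq J] (j : J) (g : (J → V) → ℝ) : Prop :=
  ∀ x v, g (Function.update x j v) = g x

/-- the linear forms condition for a system of weights `ν j` (not depending on the coordinate `j`) -/
def LF [Fintype J] [DecidableEq J] [Fintype V] (ν : J → (J → V) → ℝ) (η : ℝ) : Prop :=
  ∀ T : Finset (J × Finset J), (∀ t ∈ T, t.1 ∉ t.2) →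
    |av (fun y : J → V × V => ∏ t ∈ T, ν t.1 (sl t.2 y)) - 1| ≤ η

/-- the cut norm of `h` (not depending on the coordinate `j`) is at most `η` -/
def Cut [Fintype J] [DecidableEq J] [Fintype V] (j : J) (h : (J → V) → ℝ) (η : ℝ) : Prop :=
  ∀ u : J → (J → V) → ℝ, (∀ i, Ind i (u i)) → (∀ i x, |u i x| ≤ 1) →
    |av (fun x : J → V => h x * ∏ i ∈ univ.erase j, u i x)| ≤ η

end RS

/-- (CS) iterated Cauchy-Schwarz -/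
def S_CS : Prop := ∀ (J V : Type) [Fintype J] [DecidableEq J] [Fintype V] [Nonempty V]
  (D : Finset J) (h : (J → V × V) → ℝ) (g μ : J → (J → V × V) → ℝ) (B : ℝ), 1 ≤ B →
  (∀ i ∈ D, ∀ y v, h (Function.update y i ((y i).1, v)) = h y) →
  (∀ j ∈ D, ∀ i ∈ D, ∀ y v, g j (Function.update y i ((y i).1, v)) = g j y) →
  (∀ j ∈ D, ∀ i ∈ D, ∀ y v, μ j (Function.update y i ((y i).1, v)) = μ j y) →
  (∀ j ∈ D, ∀ y w, g j (Function.update y j w) = g j y) →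
  (∀ j ∈ D, ∀ y w, μ j (Function.update y j w) = μ j y) →
  (∀ j ∈ D, ∀ y, |g j y| ≤ μ j y) →
  (∀ j ∈ D, ∀ D' ⊆ D.erase j,
    av (fun y : J → V × V => ∏ ω ∈ D'.powerset, μ j (sw ω y)) ≤ B) →
  |av (fun y : J → V × V => h y * ∏ j ∈ D, g j y)| ^ (2 ^ D.card) ≤ B ^ (2 ^ D.card - 1) *
    |av (fun y : J → V × V => (∏ ω ∈ D.powerset, h (sw ω y)) *
      ∏ j ∈ D, ∏ ω ∈ (D.erase j).powerset, μ j (sw ω y))|

/-- (SLF) the strong linear forms condition -/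
def S_SLF : Prop := ∀ (J : Type) [Fintype J] [DecidableEq J] (ε : ℝ), 0 < ε →
  ∃ η : ℝ, 0 < η ∧ ∀ (V : Type) [Fintype V] [Nonempty V] (ν : J → (J → V) → ℝ),
    (∀ j x, 0 ≤ ν j x) → (∀ j, Ind j (ν j)) → LF ν η →
    ∀ (j : J) (g : Bool → J → (J → V) → ℝ) (b : Bool → J → Bool), (∀ c i, Ind i (g c i)) →
      (∀ c i x, |g c i x| ≤ if b c i = true then ν i x else 1) →
      |av (fun y : J → V × V => (ν j (sl ∅ y) - 1) *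
        ∏ i ∈ univ.erase j, (g false i (sl ∅ y) * g true i (sl {j} y)))| ≤ ε

/-- (CNT) the relative counting lemma -/
def S_CNT : Prop := ∀ (J : Type) [Fintype J] [DecidableEq J] (ε : ℝ), 0 < ε →
  ∃ η : ℝ, 0 < η ∧ ∀ (V : Type) [Fintype V] [Nonempty V] (ν g h : J → (J → V) → ℝ),
    (∀ j, Ind j (ν j)) → (∀ j, Ind j (g j)) → (∀ j, Ind j (h j)) → LF ν η →
    (∀ j x, 0 ≤ g j x ∧ g j x ≤ ν j x) → (∀ j x, 0 ≤ h j x ∧ h j x ≤ 1) →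
    (∀ j, Cut j (fun x => g j x - h j x) η) →
    |av (fun x : J → V => ∏ j, g j x) - av (fun x : J → V => ∏ j, h j x)| ≤ ε

/-- (DMT) the dense model theorem -/
def S_DMT : Prop := ∀ ε : ℝ, 0 < ε → ∃ ε' : ℝ, 0 < ε' ∧ ∀ (V : Type) [Fintype V] [Nonempty V]
  (Φ : Set (V → ℝ)), (∀ φ ∈ Φ, ∀ a, |φ a| ≤ 1) → (fun _ => 1) ∈ Φ → (∀ φ ∈ Φ, -φ ∈ Φ) →
  (∀ φ ∈ Φ, ∀ ψ ∈ Φ, φ * ψ ∈ convexHull ℝ Φ) →
  ∀ ν f : V → ℝ, (∀ a, 0 ≤ f a ∧ f a ≤ ν a) →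
  (∀ φ ∈ Φ, |av (fun a => (ν a - 1) * φ a)| ≤ ε') →
  ∃ g : V → ℝ, (∀ a, 0 ≤ g a ∧ g a ≤ 1) ∧ ∀ φ ∈ Φ, |av (fun a => (f a - g a) * φ a)| ≤ ε

/-- the linear form `L_j(x) = ∑ (i - j) x_i`; it does not depend on `x_j` -/
def Lf {k N : ℕ} (j : Fin k) (x : Fin k → ZMod N) : ZMod N :=
  ∑ i : Fin k, (((i : ℕ) : ZMod N) - ((j : ℕ) : ZMod N)) * x i

/-- the generalised convolutions -/
def Phi (r N : ℕ) [NeZero N] : Set (ZMod N → ℝ) :=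
  {φ | ∃ u : Fin (r + 1) → (Fin (r + 1) → ZMod N) → ℝ, (∀ i, Ind i (u i)) ∧
    (∀ i x, |u i x| ≤ 1) ∧ ∀ a, φ a = N * av (fun x : Fin (r + 1) → ZMod N =>
      if Lf 0 x = a then ∏ i ∈ univ.erase 0, u i x else 0)}

/-- (PHI) the generalised convolutions and the cut norm -/
def S_PHI : Prop := ∀ (r N : ℕ) [NeZero N], 1 ≤ r → N.Prime → r < N →
  (∀ φ ∈ Phi r N, ∀ a, |φ a| ≤ 1) ∧ (fun _ => 1) ∈ Phi r N ∧ (∀ φ ∈ Phi r N, -φ ∈ Phi r N) ∧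
  (∀ φ ∈ Phi r N, ∀ ψ ∈ Phi r N, φ * ψ ∈ convexHull ℝ (Phi r N)) ∧
  (∀ (h : ZMod N → ℝ) (ε : ℝ), (∀ φ ∈ Phi r N, |av (fun a => h a * φ a)| ≤ ε) →
    ∀ j : Fin (r + 1), Cut j (fun x => h (Lf j x)) ε) ∧
  (∀ (h : ZMod N → ℝ) (ε : ℝ), Cut (0 : Fin (r + 1)) (fun x => h (Lf 0 x)) ε →
    ∀ φ ∈ Phi r N, |av (fun a => h a * φ a)| ≤ ε)

/-- (VAR) Szemerédi's theorem in the form of Varnavides -/
def S_VAR : Prop := ∀ (k : ℕ) (δ : ℝ), 0 < δ → ∃ c : ℝ, 0 < c ∧ ∀ (N : ℕ) [NeZero N]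
  (f : ZMod N → ℝ), (∀ a, 0 ≤ f a ∧ f a ≤ 1) → δ ≤ av f →
  c ≤ av (fun p : ZMod N × ZMod N => ∏ j ∈ range k, f (p.1 + (j : ZMod N) * p.2))

/-- the `k`-linear forms condition for a weight on `ZMod N` -/
def LFk (k N : ℕ) [NeZero N] (ν : ZMod N → ℝ) (η : ℝ) : Prop :=
  LF (fun (j : Fin k) (x : Fin k → ZMod N) => ν (Lf j x)) η

/-- (RS) the relative Szemerédi theorem -/
def S_RS : Prop := ∀ k : ℕ, 2 ≤ k → ∀ δ : ℝ, 0 < δ → ∃ c η : ℝ, 0 < c ∧ 0 < η ∧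
  ∀ (N : ℕ) [NeZero N], N.Prime → k < N → ∀ ν f : ZMod N → ℝ, (∀ a, 0 ≤ f a ∧ f a ≤ ν a) →
    LFk k N ν η → δ ≤ av f →
    c ≤ av (fun p : ZMod N × ZMod N => ∏ j ∈ range k, f (p.1 + (j : ZMod N) * p.2))

/-! ### Part 2: the enveloping sieve -/

/-- the number of classes `r` modulo `p` such that `p` divides some `1 + r W u_i` -/
def rho (W : ℕ) {m : ℕ} (u : Fin m → ℕ) (p : ℕ) : ℕ :=
  ((range p).filter (fun r => ∃ i, p ∣ 1 + r * W * u i)).card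

open Classical in
/-- (C1) the number of `K ∈ (X, 2X]` in a class modulo `D` for which all `1 + K W u_i` have no prime
factor `≤ 2 ^ 2 ^ J` -/
def S_C1 : Prop := ∃ C : ℕ, 1 ≤ C ∧ ∀ m b W : ℕ, C * (m + 1) ≤ b → 1 ≤ W →
  (∀ p : ℕ, p.Prime → p ≤ C * (m + 1) → p ∣ W) → ∀ (u : Fin m → ℕ) (J D a X : ℕ), 1 ≤ D →
  (∀ p ∈ PS W (2 ^ 2 ^ J), ¬ p ∣ D) →
  |(((Ioc X (2 * X)).filter (fun K => K % D = a % D ∧
      ∀ p ∈ PS W (2 ^ 2 ^ J), ∀ i, ¬ p ∣ 1 + K * W * u i)).card : ℝ) -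
    (X : ℝ) / D * ∏ p ∈ PS W (2 ^ 2 ^ J), (1 - (rho W u p : ℝ) / p)| ≤
    (1 / 2 : ℝ) ^ b * ((X : ℝ) / D * ∏ p ∈ PS W (2 ^ 2 ^ J), (1 - (rho W u p : ℝ) / p)) +
      ((2 : ℝ) ^ 2 ^ J) ^ (C * b)

/-- the quadratic form of a weight -/
noncomputable def qf (R : ℕ) (lam : ℕ → ℝ) : ℝ :=
  ∑ d ∈ Icc 1 R, ∑ e ∈ Icc 1 R, lam d * lam e / (Nat.lcm d e : ℕ)

/-- (SEL) Selberg's weights on the integers without prime factor `≤ z` -/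
def S_SEL : Prop := ∃ c C : ℝ, 0 < c ∧ 0 < C ∧ ∀ z R : ℕ, 2 ≤ z → z ≤ R → ∃ lam : ℕ → ℝ,
  lam 1 = 1 ∧ (∀ d, |lam d| ≤ 1) ∧
  (∀ d, lam d ≠ 0 → 1 ≤ d ∧ d ≤ R ∧ Squarefree d ∧ ∀ p : ℕ, p.Prime → p ∣ d → z < p) ∧
  0 < qf R lam ∧ qf R lam * (c * Real.log R) ≤ Real.log z ∧ 1 ≤ qf R lam * (C * Real.log R)

/-- (LOC) the local factors -/
def S_LOC : Prop := ∀ (m : ℕ) (η : ℝ), 0 < η → ∃ s₀ : ℝ, ∀ s : ℝ, s₀ ≤ s → ∀ W : ℕ, 1 ≤ W →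
  (∀ p : ℕ, p.Prime → (p : ℝ) ≤ s → p ∣ W) → ∀ u : Fin m → ℕ, Function.Injective u →
  (∀ i, 1 ≤ u i ∧ Real.log (u i) ≤ s) → ∀ R : ℕ,
    |∏ p ∈ PS W R, (1 - (rho W u p : ℝ) / p) - PIj W R 1 ^ m| ≤ η * PIj W R 1 ^ m

/-- the admissible moduli `W` and lengths `N` -/
def Ok (B' s₀ X W N : ℕ) : Prop :=
  1 ≤ W ∧ W ≤ X ∧ 2 ≤ N ∧ (N : ℝ) ≤ Real.log X ^ B' ∧ (∀ p : ℕ, p.Prime → p ≤ s₀ → p ∣ W) ∧
  (∀ p : ℕ, p.Prime → (p : ℝ) ≤ Real.log N → p ∣ W) ∧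
  (∀ p : ℕ, p.Prime → p ∣ W → (p : ℝ) ≤ Real.exp (Real.sqrt (Real.log X)))

/-- (MAJ) the majorant of the primes -/
def S_MAJ : Prop := ∀ M : ℕ, ∃ c : ℝ, 0 < c ∧ ∀ η : ℝ, 0 < η → ∃ B s₀ : ℕ, ∀ B' : ℕ, ∃ X₀ : ℕ,
  ∀ X W N : ℕ, X₀ ≤ X → Ok B' s₀ X W N → ∃ ν : ℕ → ℝ, (∀ n, 0 ≤ ν n) ∧
    (∀ n, n ≤ X ^ 4 → ν n ≤ Real.log X ^ B) ∧
    (∀ p : ℕ, p.Prime → X < p → c * ((W.totient : ℝ) / W) * Real.log X ≤ ν p) ∧
    ∀ m ≤ M, ∀ u : Fin m → ℕ, Function.Injective u → (∀ i, 1 ≤ u i ∧ u i ≤ N) →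
      |(∑ K ∈ Ioc X (2 * X), ∏ i, ν (1 + K * W * u i)) / X - 1| ≤ η

/-- the representative in `[1, N]` -/
def rp {N : ℕ} (a : ZMod N) : ℕ := if a = 0 then N else a.val

/-- the weight on `ZMod N` attached to `K` -/
def nuK (ν : ℕ → ℝ) (N W K : ℕ) (a : ZMod N) : ℝ := ν (1 + K * W * rp a)

open Classical in
/-- (MK) the majorant satisfies the `k`-linear forms condition for most `K` -/
def S_MK : Prop := ∀ k : ℕ, 2 ≤ k → ∃ c : ℝ, 0 < c ∧ ∀ η : ℝ, 0 < η → ∃ B₀ B s₀ : ℕ,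
  k * B₀ + 1 ≤ B ∧ ∀ B' : ℕ, ∃ X₀ : ℕ, ∀ (X W N : ℕ) [NeZero N], X₀ ≤ X → Ok B' s₀ X W N →
    N.Prime → Real.log X ^ B ≤ N → ∃ ν : ℕ → ℝ, (∀ n, 0 ≤ ν n) ∧
    (∀ n, n ≤ X ^ 4 → ν n ≤ Real.log X ^ B₀) ∧
    (∀ p : ℕ, p.Prime → X < p → c * ((W.totient : ℝ) / W) * Real.log X ≤ ν p) ∧
    ∑ K ∈ Ioc X (2 * X), |av (nuK ν N W K) - 1| ≤ η * X ∧
    (((Ioc X (2 * X)).filter (fun K => ¬ LFk k N (nuK ν N W K) η)).card : ℝ) ≤ η * X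

/-! ### Part 3: primes -/

/-- (SMO) many primes `p ≤ y` with `p - 1` dividing a number `Λ` with `log Λ` small -/
def S_SMO : Prop := ∃ c : ℝ, 0 < c ∧ ∃ y₀ : ℕ, ∀ y : ℕ, y₀ ≤ y → ∃ (P : Finset ℕ) (Λ : ℕ),
  (∀ p ∈ P, p.Prime ∧ p ≤ y ∧ (p - 1) ∣ Λ) ∧ c * y / Real.log y ≤ P.card ∧ 1 ≤ Λ ∧
  Real.log Λ ≤ (y : ℝ) ^ (4 / 5 : ℝ)

open Classical in
/-- (BAD) few characters have a small `Lj z χ 0 σ` -/
def S_BAD : Prop := ∃ E z₀ : ℕ, ∀ z : ℕ, z₀ ≤ z → ∀ σ : ℝ, 1 / Real.log z ^ 2 ≤ σ → σ ≤ 1 →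
  ∀ Q : ℕ, Q ^ 4 ≤ z → (((Icc 2 Q).filter (fun f => ∃ χ : DirichletCharacter ℂ f,
    χ.IsPrimitive ∧ ‖Lj z χ 0 σ‖ < 1 / 2)).card : ℝ) ≤ Real.log z ^ E

/-- (PRM) primes in progressions to moduli `P w u` -/
def S_PRM : Prop := ∃ (K₀ : ℕ) (c : ℝ), 1 ≤ K₀ ∧ 0 < c ∧ ∀ B : ℕ, ∃ z₁ : ℕ, ∀ z : ℕ, z₁ ≤ z →
  ∃ w Λ : ℕ, Squarefree w ∧ 1 ≤ Λ ∧ (∀ p : ℕ, p.Prime → p ∣ w → (p - 1) ∣ Λ ∧
    (p : ℝ) ≤ Real.log z) ∧ (w : ℝ) ≤ Real.exp (Real.sqrt (Real.log z)) ∧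
  Real.log z ^ B * Λ ≤ 2 ^ (w.primeFactors.card / 2) ∧
  ∀ P u : ℕ, 1 ≤ P → 1 ≤ u → (P : ℝ) ≤ Real.log z ^ B → (u : ℝ) ≤ Real.log z ^ B →
    c / ((P * w * u).totient : ℝ) ≤ ∑ p ∈ (Ioc z (z ^ K₀)).filter
      (fun p => p.Prime ∧ p ≡ 1 [MOD P * w * u]), (1 : ℝ) / p

/-! ### Part 4: pseudoprimes -/

/-- (DAV) van Emde Boas-Kruyswijk, Meshulam: a long sequence in a finite abelian group of exponent
dividing `m` has a nonempty subsequence with product `1` -/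
def S_DAV : Prop := ∀ (G : Type) [CommGroup G] [Fintype G] (m : ℕ), 1 ≤ m → (∀ g : G, g ^ m = 1) →
  ∀ (ι : Type) [Fintype ι] (g : ι → G), (m : ℝ) * Real.log (Fintype.card G) < Fintype.card ι →
    ∃ S : Finset ι, S.Nonempty ∧ ∏ i ∈ S, g i = 1

/-- (PPD) Bang: primitive prime divisors of `2 ^ n - 1` -/
def S_PPD : Prop := ∀ n : ℕ, 7 ≤ n → ∃ q : ℕ, q.Prime ∧ orderOf (2 : ZMod q) = n

/-- (PSP) pseudoprimes `g (1 + K w u_j)` from primes `1 + K w u_j` -/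
def S_PSP : Prop := ∀ (k K w Λ a r : ℕ), 1 ≤ k → 7 ≤ K → Squarefree w → 1 ≤ Λ →
  (∀ p : ℕ, p.Prime → p ∣ w → (p - 1) ∣ Λ) → 1 ≤ a → 1 ≤ r →
  (∀ j < k, (1 + K * w * (a + j * r)).Prime) →
  (∏ j ∈ range k, (a + j * r)) ^ 4 * Λ * (2 * (Nat.log 2 w + 2)) + k <
    2 ^ (w.primeFactors.filter (fun p => ¬ p ∣ K)).card →
  ∃ g : ℕ, 1 < g ∧ ∀ j < k, ¬ (g * (1 + K * w * (a + j * r))).Prime ∧
    g * (1 + K * w * (a + j * r)) ∣ 2 ^ (g * (1 + K * w * (a + j * r))) - 2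

/-- (FIN) arithmetic progressions of `k` pseudoprimes -/
def S_FIN : Prop := ∀ k A : ℕ, ∃ a d : ℕ, A ≤ a ∧ 0 < d ∧ ∀ i < k,
  1 < a + i * d ∧ ¬ (a + i * d).Prime ∧ (a + i * d) ∣ 2 ^ (a + i * d) - 2

end Pool.Agent.Y727.PSP
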